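import Pool.Agent.H99.NB1

set_option autoImplicit false

open Filter Topology Set

namespace Pool.Agent.Results.MP_32f877_an.BoundedVolume

/-- volume of the tetrahedron spanned by four points of `ℝ^3` -/
noncomputable def vol (q : Fin 4 → EuclideanSpace ℝ (Fin 3)) : ℝ :=
  1 / 6 * |(Matrix.of fun i k : Fin 3 => (q i.succ - q 0) k).det|

open Pool.Agent.H99.NB in
theorem result : ∃ (m : Fin 4 → ℝ) (q v a : ℝ → Fin 4 → EuclideanSpace ℝ (Fin 3)) (c C : ℝ),
    (∀ i, 0 < m i) ∧ 0 < c ∧ c ≤ C ∧ ∀ t, 0 ≤ t →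
      (∀ i j, i ≠ j → q t i ≠ q t j) ∧
      (∀ i, HasDerivAt (fun s => q s i) (v t i) t ∧ HasDerivAt (fun s => v s i) (a t i) t ∧
        m i • a t i = ∑ j ∈ Finset.univ.erase i,
          (m i * m j / ‖q t j - q t i‖ ^ 3) • (q t j - q t i)) ∧
      c ≤ vol (q t) ∧ vol (q t) ≤ C := by
  set e : EuclideanSpace ℝ (Fin 3) := EuclideanSpace.single 0 1 with he
  have ne : ‖e‖ = 1 := by simp [he]
  set α : Fin 4 → ℝ := ![-30, -10, 10, 30] with hα
  set β : Fin 4 → ℝ := ![-49 / 144, -1 / 16, 1 / 16, 49 / 144] with hβ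
  set A : Fin 4 → EuclideanSpace ℝ (Fin 3) := fun i => α i • e with hA
  set B : Fin 4 → EuclideanSpace ℝ (Fin 3) := fun i => (β i / 10 ^ 8) • e with hB
  set C : Fin 4 → EuclideanSpace ℝ (Fin 3) :=
    ![!₂[1, -1, 0], !₂[0, 0, -1], !₂[0, 0, 1], !₂[1, 1, 0]] with hC
  have Ne : ∀ d : ℝ, N (d • e) = (d / |d| ^ 3) • e := fun d => by
    simp [N, norm_smul, ne, smul_smul, div_eq_inv_mul]
  have FA : F (1 / 10 ^ 6) A = -B := by
    funext i
    simp only [F, hA, hB, ← sub_smul, Ne, smul_smul, ← Finset.sum_smul, Pi.neg_apply, ← neg_smul]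
    congr 1
    fin_cases i <;> simp [hα, hβ, Fin.sum_univ_four] <;> norm_num [abs_of_pos, abs_of_neg]
  have sA : ∀ t, 1 ≤ t → ∀ i j, i ≠ j → 20 * t ≤ ‖(t • A) j - (t • A) i‖ := fun t ht i j h => by
    have : 20 ≤ |α j - α i| := by
      fin_cases i <;> fin_cases j <;> simp [hα] at h ⊢ <;> norm_num [le_abs]
    simp only [Pi.smul_apply, hA, ← smul_sub, ← sub_smul, norm_smul, ne, Real.norm_eq_abs,
      abs_of_pos (one_pos.trans_le ht)]
    nlinarith
  have nB : ‖B‖ ≤ 1 := (pi_norm_le_iff_of_nonneg zero_le_one).2 fun i => by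
    simp only [hB, norm_smul, ne, Real.norm_eq_abs, mul_one]
    fin_cases i <;> simp [hβ, abs_div] <;> norm_num
  have nC : ‖C‖ ≤ 2 := (pi_norm_le_iff_of_nonneg zero_le_two).2 fun i => by
    rw [EuclideanSpace.norm_eq, Real.sqrt_le_left zero_le_two]
    fin_cases i <;> simp [hC, Fin.sum_univ_three] <;> norm_num
  have nD : ∀ t, 1 ≤ t → ∀ x : Fin 4 → EuclideanSpace ℝ (Fin 3), ‖x‖ ≤ 1 →
      ‖Real.log t • B + C + x‖ ≤ 5 * t ^ (1 / 2 : ℝ) := fun t ht x hx => by
    have h1 := Real.log_le_rpow_div (zero_le_one.trans ht) (show (0 : ℝ) < 1 / 2 by norm_num)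
    have h2 := Real.one_le_rpow ht (show (0 : ℝ) ≤ 1 / 2 by norm_num)
    have h3 := norm_add₃_le (a := Real.log t • B) (b := C) (c := x)
    have h4 := Real.log_nonneg ht
    rw [norm_smul, Real.norm_of_nonneg h4] at h3
    nlinarith
  have nD' : ∀ t, 1 ≤ t → ∀ x : Fin 4 → EuclideanSpace ℝ (Fin 3), ‖x‖ ≤ 1 →
      ‖Real.log t • B + C + x‖ ≤ 5 * t := fun t ht x hx => (nD t ht x hx).trans (by
    have := Real.rpow_le_self_of_one_le ht (show (1 / 2 : ℝ) ≤ 1 by norm_num); linarith)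
  set X := fun (t : ℝ) (x : Fin 4 → EuclideanSpace ℝ (Fin 3)) => t • A + (Real.log t • B + C + x)
    with hX
  have sX : ∀ t, 1 ≤ t → ∀ x, ‖x‖ ≤ 1 → ∀ i j, i ≠ j → t ≤ ‖X t x j - X t x i‖ :=
    fun t ht x hx i j h => by
      have h1 := sA t ht i j h
      have h2 := (norm_le_pi_norm _ i).trans (nD' t ht x hx)
      have h3 := (norm_le_pi_norm _ j).trans (nD' t ht x hx)
      set D := Real.log t • B + C + x
      have h4 := norm_add₃_le (a := X t x j - X t x i) (b := D i) (c := -D j)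
      rw [show X t x j - X t x i + D i + -D j = (t • A) j - (t • A) i by
        simp only [hX, Pi.add_apply, D]; abel, norm_neg] at h4
      linarith
  have sA' : ∀ t, 1 ≤ t → ∀ i j, i ≠ j → t ≤ ‖(t • A) j - (t • A) i‖ := fun t ht i j h => by
    linarith [sA t ht i j h]
  have r3 : ∀ t : ℝ, 1 ≤ t → t ^ (-(1 : ℝ) - 2) = 1 / t ^ 3 := fun t ht => by
    rw [show -(1 : ℝ) - 2 = -((3 : ℕ) : ℝ) by norm_num, Real.rpow_neg (by linarith),
      Real.rpow_natCast, one_div]
  obtain ⟨g, u, cg, hs, hu⟩ := final (fun t x => F (1 / 10 ^ 6) (X t x) - F (1 / 10 ^ 6) (t • A))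
    (1 / 1000) (by norm_num) (by norm_num) (fun ξ h1 h2 => by
      have p : ∀ t : ℝ, 0 < max t 1 := fun t => lt_max_of_lt_right one_pos
      have : Continuous fun t : ℝ => Real.log (max t 1) :=
        Continuous.log (by fun_prop) fun t => (p t).ne'
      refine (F_cont _ (x := fun t => X (max t 1) (ξ t)) (by simp only [hX]; fun_prop)
        fun t i j h => ?_).sub (F_cont _ (x := fun t => max t 1 • A) (by fun_prop) fun t i j h => ?_)
      · exact norm_pos_iff.1 ((p t).trans_le (sX _ (le_max_right _ _) _ (h2 t) i j h))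
      · exact norm_pos_iff.1 ((p t).trans_le (sA' _ (le_max_right _ _) i j h)))
    (fun t ht x hx => by
      have t0 : 0 < t := by linarith
      refine (F_lip (by norm_num) t0 (sX t ht x hx) (sA' t ht)).trans ?_
      have : t ^ (-(1 / 2 : ℝ) - 2) = t ^ (1 / 2 : ℝ) / t ^ 3 := by
        rw [← Real.rpow_natCast, ← Real.rpow_sub t0]; norm_num
      rw [this, hX, add_sub_cancel_left, ← mul_div_assoc _ (t ^ (1 / 2 : ℝ))]
      have := nD t ht x hx
      have := Real.rpow_pos_of_pos t0 (1 / 2)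
      gcongr ?_ / _
      linarith)
    (fun t ht x y hx hy => by
      rw [sub_sub_sub_cancel_right, r3 t ht, mul_one_div]
      refine (F_lip (by norm_num) (by linarith) (sX t ht x hx) (sX t ht y hy)).trans ?_
      rw [show X t x - X t y = x - y by simp [hX]]
      have := norm_nonneg (x - y)
      gcongr ?_ / _
      linarith)
  have u1 : ∀ t, 1 ≤ t → ‖u t‖ ≤ 1 := fun t ht => (hu t ht).1.trans (by norm_num)
  have uc : ∀ t, 1 ≤ t → ∀ i k, |u t i k| ≤ 1 / 1000 := fun t ht i k =>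
    ((PiLp.norm_apply_le (u t i) k).trans (norm_le_pi_norm _ i)).trans (hu t ht).1
  have tr : ∀ i k, k ≠ 0 → ∀ t, 1 ≤ t → |u t i k| * t ≤ 8 / 10 ^ 6 := fun i k hk t ht => by
    have := (hs.map ((EuclideanSpace.proj k).comp (ContinuousLinearMap.proj i))).bound
      (by fun_prop) one_pos (K := 16 / 10 ^ 6) (fun τ hτ => by
        have τ0 : 0 < τ := by linarith
        have z : ∀ j, |X τ (u τ) j k| ≤ 2 := fun j => by
          have h1 : |C j k| ≤ 1 := by fin_cases j <;> fin_cases k <;> simp [hC]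
          have h2 := uc τ hτ j k
          have h3 := abs_add_le (C j k) (u τ j k)
          simp [hX, hA, hB, he, hk]
          linarith
        have : F (1 / 10 ^ 6) (τ • A) i k = 0 := by
          rw [F_smul _ _ τ0, FA]; simp [hB, he, hk]
        simp only [Function.comp, (hu τ hτ).2, ContinuousLinearMap.comp_apply,
          ContinuousLinearMap.proj_apply, EuclideanSpace.coe_proj, Pi.sub_apply, PiLp.sub_apply,
          this, sub_zero, r3 τ hτ]
        simp only [F, N, WithLp.ofLp_sum, Finset.sum_apply, PiLp.smul_apply, PiLp.sub_apply]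
        refine (norm_sum_le_of_le _ (n := fun _ => 1 / 10 ^ 6 * (1 / τ ^ 3 * 4))
          fun j _ => ?_).trans (le_of_eq (by simp; ring))
        rcases eq_or_ne i j with rfl | h
        · simp; positivity
        rw [norm_smul, norm_smul, Real.norm_of_nonneg (by positivity),
          Real.norm_of_nonneg (by positivity)]
        have := sX τ hτ _ (u1 τ hτ) i j h
        have := abs_sub (X τ (u τ) j k) (X τ (u τ) i k)
        gcongr
        rw [Real.norm_eq_abs]
        linarith [z j, z i]) t ht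
    rw [Real.rpow_neg_one, ← div_eq_mul_inv, le_div_iff₀ (by linarith)] at this
    simpa using this.trans (le_of_eq (by norm_num))
  obtain ⟨w, d1, d2, -⟩ := hs
  refine ⟨fun _ => 1 / 10 ^ 6, fun t => X (t + 1) (u (t + 1)),
    fun t => A + ((t + 1)⁻¹ • B + w (t + 1)), fun t => F (1 / 10 ^ 6) (X (t + 1) (u (t + 1))),
    1 / 3, 1, fun _ => by norm_num, by norm_num, by norm_num, fun t t0 => ?_⟩
  have ht : 1 ≤ t + 1 := by linarith
  have tp : 0 < t + 1 := by linarith
  have hi := (hasDerivAt_id t).add_const 1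
  refine ⟨fun i j h => (sub_ne_zero.1 (norm_pos_iff.1 (tp.trans_le
    (sX _ ht _ (u1 _ ht) i j h)))).symm, fun i => ⟨?_, ?_, ?_⟩, ?_⟩
  · refine hasDerivAt_pi.1 ?_ i
    exact ((hi.smul_const A).add ((((hi.log tp.ne').smul_const B).add_const C).add
      ((d1 (t + 1)).comp_add_const t 1))).congr_deriv (by simp)
  · refine hasDerivAt_pi.1 ?_ i
    refine ((((hi.inv tp.ne').smul_const B).add
      ((d2 (t + 1)).comp_add_const t 1)).const_add A).congr_deriv ?_
    rw [(hu _ ht).2, F_smul _ _ tp, FA]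
    simp [neg_div]
  · rw [Finset.sum_erase _ (by simp)]
    simp only [F, N, Finset.smul_sum, smul_smul]
    exact Finset.sum_congr rfl fun j _ => by congr 1; ring
  set s := t + 1
  set x := X s (u s) with hx
  have xc : ∀ i k, x i k = (s * α i + Real.log s * (β i / 10 ^ 8)) * e k + C i k + u s i k :=
    fun i k => by
      simp only [hx, hX, hA, hB, Pi.add_apply, Pi.smul_apply, PiLp.add_apply, PiLp.smul_apply,
        smul_eq_mul]
      ring
  have big : ∀ i j, |x j 0 - x i 0| ≤ 70 * s := fun i j => by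
    have b : ∀ i, |x i 0| ≤ 35 * s := fun i => by
      have h1 := (PiLp.norm_apply_le _ 0).trans ((norm_le_pi_norm _ i).trans (nD' s ht _ (u1 s ht)))
      have h2 : |α i| ≤ 30 := by fin_cases i <;> simp [hα] <;> norm_num [abs_le]
      have h3 := abs_add_le (s * α i) ((Real.log s • B + C + u s) i 0)
      rw [abs_mul, abs_of_pos tp] at h3
      have : x i 0 = s * α i + (Real.log s • B + C + u s) i 0 := by simp [hx, hX, hA, he]
      rw [this]
      rw [Real.norm_eq_abs] at h1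
      nlinarith
    linarith [abs_sub (x j 0) (x i 0), b i, b j]
  have sm : ∀ k, k ≠ 0 → ∀ i j, |(x 0 k + x 3 k - x 1 k - x 2 k) * (x j 0 - x i 0)| ≤ 1 / 9 :=
    fun k hk i j => by
      have : x 0 k + x 3 k - x 1 k - x 2 k = u s 0 k + u s 3 k - u s 1 k - u s 2 k := by
        simp only [xc]
        fin_cases k <;> simp [hC, he] at hk ⊢ <;> ring
      have h1 : |u s 0 k + u s 3 k - u s 1 k - u s 2 k| ≤
          |u s 0 k| + |u s 3 k| + |u s 1 k| + |u s 2 k| :=
        (abs_sub _ _).trans (add_le_add_left ((abs_sub _ _).trans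
          (add_le_add_left (abs_add_le _ _) _)) _)
      rw [this, abs_mul]
      refine (mul_le_mul h1 (big i j) (abs_nonneg _) (by positivity)).trans ?_
      linarith [tr 0 k hk s ht, tr 1 k hk s ht, tr 2 k hk s ht, tr 3 k hk s ht]
  have q := fun i k => abs_le.1 (uc s ht i k)
  have := detb (r0 := x 0 0 + x 3 0 - x 1 0 - x 2 0) (p1 := x 3 1 - x 0 1) (q2 := x 2 2 - x 1 2)
    (p2 := x 3 2 - x 0 2) (q1 := x 2 1 - x 1 1) ?_ ?_ ?_ ?_ ?_ (sm 1 (by simp) 0 3)
    (sm 1 (by simp) 1 2) (sm 2 (by simp) 0 3) (sm 2 (by simp) 1 2)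
  · have e2 : (Matrix.of fun i k : Fin 3 => (x i.succ - x 0) k).det = 1 / 2 *
        ((x 0 0 + x 3 0 - x 1 0 - x 2 0) * ((x 3 1 - x 0 1) * (x 2 2 - x 1 2) -
          (x 3 2 - x 0 2) * (x 2 1 - x 1 1)) - (x 0 1 + x 3 1 - x 1 1 - x 2 1) *
          ((x 3 0 - x 0 0) * (x 2 2 - x 1 2) - (x 3 2 - x 0 2) * (x 2 0 - x 1 0)) +
          (x 0 2 + x 3 2 - x 1 2 - x 2 2) * ((x 3 0 - x 0 0) * (x 2 1 - x 1 1) -
          (x 3 1 - x 0 1) * (x 2 0 - x 1 0))) := by
      simp [Matrix.det_fin_three]; ring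
    rw [abs_le] at this
    rw [vol, e2, abs_of_nonneg (by linarith)]
    constructor <;> linarith
  all_goals
    simp only [xc]
    simp [hC, he, hα, hβ, abs_le]
    constructor <;> linarith [q 0 0, q 1 0, q 2 0, q 3 0, q 0 1, q 1 1, q 2 1, q 3 1, q 0 2, q 1 2,
      q 2 2, q 3 2]

end Pool.Agent.Results.MP_32f877_an.BoundedVolume
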